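import Pool.Agent.J6H77.N18.Stm

/-!
# Module N18-EMB
-/

set_option autoImplicit false

namespace Pool.Agent.J6H63.N18

open Finset Pool.Agent.J6H77.N18

theorem mask_step (m b j : ℕ) (h : Nat.mod (Nat.shiftRight m b) 2 = 0)
    (h2 : Nat.mod (Nat.shiftRight (Nat.add m (Nat.shiftLeft 1 b)) j) 2 = 0) :
    j ≠ b ∧ Nat.mod (Nat.shiftRight m j) 2 = 0 := by
  change (m >>> b) % 2 = 0 at h
  change ((m + 1 <<< b) >>> j) % 2 = 0 at h2
  change j ≠ b ∧ (m >>> j) % 2 = 0
  rw [Nat.shiftRight_eq_div_pow] at h h2 ⊢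
  rw [Nat.shiftLeft_eq, one_mul] at h2
  rcases Nat.lt_trichotomy j b with hj | hj | hj
  · refine ⟨hj.ne, ?_⟩
    obtain ⟨e, rfl⟩ : ∃ e, b = j + (e + 1) := ⟨b - j - 1, by omega⟩
    rw [pow_add, Nat.add_mul_div_left _ _ (by positivity), pow_succ] at h2
    omega
  · subst hj
    rw [Nat.add_div_right _ (by positivity)] at h2
    omega
  · refine ⟨hj.ne', ?_⟩
    obtain ⟨e, rfl⟩ : ∃ e, j = (b + 1) + e := ⟨j - b - 1, by omega⟩
    have h3 : (m + 2 ^ b) / 2 ^ (b + 1) = m / 2 ^ (b + 1) := by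
      rw [pow_succ, ← Nat.div_div_eq_div_mul, ← Nat.div_div_eq_div_mul,
        Nat.add_div_right _ (by positivity)]
      omega
    rw [pow_add, ← Nat.div_div_eq_div_mul] at h2 ⊢
    rw [h3] at h2
    exact h2

theorem injF_spec (F : ℕ) : ∀ n m : ℕ, injF F n m = true →
    (∀ t, t < n → Nat.mod (Nat.shiftRight m (mp F t)) 2 = 0) ∧
      ∀ s t, s < n → t < n → mp F s = mp F t → s = t := by
  intro n
  induction n with
  | zero =>
    intro m _
    exact ⟨fun t ht => absurd ht (Nat.not_lt_zero t), fun s t hs => absurd hs (Nat.not_lt_zero s)⟩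
  | succ n ih =>
    intro m h
    have h' : (Nat.beq (Nat.mod (Nat.shiftRight m (mp F n)) 2) 0 &&
      injF F n (Nat.add m (Nat.shiftLeft 1 (mp F n)))) = true := h
    rw [Bool.and_eq_true] at h'
    obtain ⟨h1, h2⟩ := h'
    have h1' : Nat.mod (Nat.shiftRight m (mp F n)) 2 = 0 := Nat.eq_of_beq_eq_true h1
    obtain ⟨h3, h4⟩ := ih _ h2
    have h5 : ∀ t, t < n → mp F t ≠ mp F n ∧ Nat.mod (Nat.shiftRight m (mp F t)) 2 = 0 :=
      fun t ht => mask_step m (mp F n) (mp F t) h1' (h3 t ht)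
    constructor
    · intro t ht
      rcases Nat.lt_succ_iff_lt_or_eq.1 ht with h | h
      · exact (h5 t h).2
      · rw [h]
        exact h1'
    · intro s t hs ht hst
      rcases Nat.lt_succ_iff_lt_or_eq.1 hs with h | h <;>
        rcases Nat.lt_succ_iff_lt_or_eq.1 ht with h' | h'
      · exact h4 s t h h' hst
      · rw [h'] at hst
        exact absurd hst (h5 s h).1
      · rw [h] at hst
        exact absurd hst.symm (h5 t h').1
      · rw [h, h']

theorem mask_zero : ∀ k, k < 19 → ∀ b, b < 32 →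
    Nat.mod (Nat.shiftRight (Nat.sub 4294967296 (Nat.shiftLeft 1 k)) b) 2 = 0 → b < k := by
  decide

theorem embE_spec (M F : ℕ) : ∀ n E : ℕ, embE M F n E = true → ∀ e ∈ edg n E,
    mp F e.1 ≠ mp F e.2 ∧ ent M (mp F e.1) (mp F e.2) = 1 := by
  intro n
  induction n with
  | zero =>
    intro E _ e he
    simp [edg] at he
  | succ n ih =>
    intro E h e he
    unfold edg at he
    unfold embE at h
    cases hE : Nat.beq E 0 with
    | true =>
      rw [hE] at he
      simp at he
    | false =>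
      rw [hE] at he h
      simp only [Bool.false_or, Bool.and_eq_true, Bool.not_eq_true', cond_false,
        List.mem_cons] at he h
      obtain ⟨⟨h1, h2⟩, h3⟩ := h
      rcases he with rfl | he
      · exact ⟨Nat.ne_of_beq_eq_false h1, Nat.eq_of_beq_eq_true h2⟩
      · exact ih _ h3 e he

theorem mp_lt (F i : ℕ) : mp F i < 32 := Nat.mod_lt _ (by norm_num)

theorem t_Emb (hD : S_Dig) : S_Emb := by
  intro k M p F h hp' c hc V _ _ A _ hA
  obtain ⟨hwf, hp⟩ := hp'
  rintro ⟨φ, hinj, hadj⟩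
  change Sh k M c at hc
  change ∀ i j, i < k → j < k → φ i = φ j → i = j at hinj
  change ∀ i j, i < k → j < k → i ≠ j → c i j = 1 → A (φ i) (φ j) at hadj
  have hk := hc.k18
  unfold embC at h
  rw [Bool.and_eq_true, Bool.and_eq_true] at h
  obtain ⟨h1, -, h3⟩ := h
  obtain ⟨h4, h5⟩ := injF_spec F _ _ h1
  have hlt : ∀ t, t < Nat.mod p 32 → mp F t < k := fun t ht =>
    mask_zero k (by omega) _ (mp_lt F t) (h4 t ht)
  refine hp V A hA ⟨fun t => φ (mp F t), ?_, ?_⟩
  · intro i j hi hj hij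
    exact h5 i j hi hj (hinj _ _ (hlt i hi) (hlt j hj) hij)
  · intro e he
    obtain ⟨h6, h7⟩ := embE_spec M F _ _ h3 e he
    obtain ⟨h8, h9⟩ := hwf e he
    have h10 := hlt _ h8
    have h11 := hlt _ h9
    refine hadj _ _ h10 h11 h6 ?_
    rw [← (hD k M c hc).1 _ _ (by omega) (by omega)]
    exact h7

theorem wf_bldE (k : ℕ) : ∀ n E M M' : ℕ, bldE k n E M = some M' →
    ∀ e ∈ edg n E, e.1 < k ∧ e.2 < k := by
  intro n
  induction n with
  | zero =>
    intro E M M' _ e he
    simp [edg] at he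
  | succ n ih =>
    intro E M M' h e he
    unfold edg at he
    unfold bldE at h
    cases hE : Nat.beq E 0 with
    | true =>
      rw [hE] at he
      simp at he
    | false =>
      rw [hE] at he h
      simp only [cond_false, List.mem_cons] at he h
      cases hc : (Nat.blt (Nat.mod E 32) k && (Nat.blt (Nat.mod (Nat.shiftRight E 5) 32) k &&
        Nat.beq (ent M (Nat.mod E 32) (Nat.mod (Nat.shiftRight E 5) 32)) 0)) with
      | false =>
        rw [hc] at h
        simp at h
      | true =>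
        rw [hc] at h
        rw [cond_true] at h
        rw [Bool.and_eq_true, Bool.and_eq_true] at hc
        rcases he with rfl | he
        · exact ⟨Nat.le_of_ble_eq_true hc.1, Nat.le_of_ble_eq_true hc.2.1⟩
        · exact ih _ _ _ h e he

/-- a pattern whose state can be built is well-formed -/
theorem wf_of_bldE {p M M' : ℕ}
    (h : bldE (Nat.mod p 32) 27 (Nat.shiftRight p 5) M = some M') : WF p :=
  wf_bldE _ _ _ _ _ h

end Pool.Agent.J6H63.N18
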